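import Mathlib
import Pool.Agent.H773.LK.Spec

/-! # S_FRED: Fredholm alternative (helper225 for helper773) -/

set_option autoImplicit false

open Filter Topology

namespace Pool.Agent.H225.LK

open Pool.Agent.H773.LK

theorem compact_of_FRk {E : Type} [NormedAddCommGroup E] [InnerProductSpace ℂ E] [CompleteSpace E]
    (T : E →L[ℂ] E) (hT : FRk T) : IsCompactOperator T := by
  have hcl := isClosed_setOfPred_isCompactOperator (σ₁₂ := RingHom.id ℂ) (M₁ := E) (M₂ := E)
  have hmem : T ∈ closure {f : E →L[ℂ] E | IsCompactOperator f} := by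
    rw [Metric.mem_closure_iff]
    intro ε hε
    obtain ⟨n, b, hb, hb2⟩ := hT (ε / 2) (by positivity)
    let S : Submodule ℂ E := Submodule.span ℂ (Set.range b)
    have hfin : FiniteDimensional ℂ S := FiniteDimensional.span_of_finite ℂ (Set.finite_range b)
    refine ⟨T ∘L S.starProjection, ?_, ?_⟩
    · have hprop : ProperSpace S := FiniteDimensional.proper_rclike ℂ S
      have h1 : IsCompactOperator (S.orthogonalProjectionOnto : E →L[ℂ] S) :=
        isCompactOperator_of_locallyCompactSpace_dom _
      exact h1.clm_comp (T ∘L S.subtypeL)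
    · rw [dist_eq_norm]
      refine lt_of_le_of_lt ?_ (half_lt_self hε)
      apply ContinuousLinearMap.opNorm_le_bound _ (by positivity)
      intro e
      have h1 : (T - T ∘L S.starProjection) e = T (e - S.starProjection e) := by
        simp
      rw [h1]
      have h2 : e - S.starProjection e ∈ Sᗮ := Submodule.sub_starProjection_mem_orthogonal e
      have h3 : ‖e - S.starProjection e‖ ≤ ‖e‖ := by
        have h4 : e = S.starProjection e + (e - S.starProjection e) := by abel
        have h5 : inner ℂ (S.starProjection e) (e - S.starProjection e) = 0 :=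
          h2 _ (Submodule.starProjection_apply_mem S e)
        have h6 := norm_add_sq_eq_norm_sq_add_norm_sq_of_inner_eq_zero _ _ h5
        rw [← h4] at h6
        apply le_of_sq_le_sq _ (norm_nonneg _)
        nlinarith [mul_self_nonneg ‖S.starProjection e‖]
      refine (hb2 _ fun i => ?_).trans (by gcongr)
      exact h2 (b i) (Submodule.subset_span ⟨i, rfl⟩)
  rw [hcl.closure_eq] at hmem
  exact hmem

theorem t_FRED : S_FRED := by
  intro E _ _ _ T hT hinj
  have hc := compact_of_FRk T hT
  rcases hc.hasEigenvalue_or_mem_resolventSet (μ := (1 : ℂ)) one_ne_zero with h | h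
  · exfalso
    obtain ⟨e, he⟩ := h.exists_hasEigenvector
    have h1 := he.apply_eq_smul
    rw [one_smul] at h1
    exact he.2 (hinj e h1)
  · have h2 : IsUnit (algebraMap ℂ (E →L[ℂ] E) 1 - T) := h
    rwa [map_one] at h2

end Pool.Agent.H225.LK
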